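import Mathlib

set_option autoImplicit false

namespace Pool.Agent.Work.MP_f3ac61_co

/-- `Good r g`: some balanced partition of `r` into `k` blocks of sizes `s`, `s+1` beats `g`. -/
def Good (r : ℕ) (g : ℝ) : Prop :=
  ∃ k s q : ℕ, 1 ≤ k ∧ 1 ≤ s ∧ q ≤ k ∧ r = k * s + q ∧ 1 < g * s ∧
    1 < k * g - ((k : ℝ) - q) / s - q / ((s : ℝ) + 1)

theorem pair_good_direct (r : ℕ) (g : ℝ) (hg : 0 < g) (s k : ℕ) (hs : 1 < g * s)
    (hk : 1 < g * k) (h1 : (s : ℝ) + k ≤ g * s * k) (h2 : (s : ℝ) + k < r * g)
    (hle : s * k ≤ r) : Good r g := by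
  have hs0 : 0 < s := by
    rcases Nat.eq_zero_or_pos s with h | h
    · subst h; simp at hs; linarith
    · exact h
  have hk0 : 0 < k := by
    rcases Nat.eq_zero_or_pos k with h | h
    · subst h; simp at hk; linarith
    · exact h
  set t := r / k with ht
  have hst : s ≤ t := (Nat.le_div_iff_mul_le hk0).mpr hle
  have ht0 : 0 < t := lt_of_lt_of_le hs0 hst
  have hdiv : k * t + r % k = r := Nat.div_add_mod r k
  have hmod : r % k < k := Nat.mod_lt r hk0
  have hsR : (0 : ℝ) < s := by exact_mod_cast hs0
  have hkR : (0 : ℝ) < k := by exact_mod_cast hk0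
  have htR : (0 : ℝ) < t := by exact_mod_cast ht0
  have hstR : (s : ℝ) ≤ t := by exact_mod_cast hst
  refine ⟨k, t, r % k, hk0, ht0, hmod.le, hdiv.symm, ?_, ?_⟩
  · calc 1 < g * s := hs
      _ ≤ g * t := by gcongr
  · have hq0 : (0 : ℝ) ≤ ((r % k : ℕ) : ℝ) := by positivity
    set q : ℝ := ((r % k : ℕ) : ℝ) with hq
    have hrR : (k : ℝ) * t + q = r := by
      rw [hq]; exact_mod_cast hdiv
    -- rewrite
    have key : (k : ℝ) * g - (k - q) / t - q / (t + 1) = k * g - k / t + q / (t * (t + 1)) := by
      field_simp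
      ring
    rw [key]
    have hqpos : 0 ≤ q / (t * (t + 1)) := by positivity
    rcases Nat.eq_or_lt_of_le hst with h | h
    · -- s = t
      have hts : (t : ℝ) = s := by rw [← h]
      rcases hq0.eq_or_lt with h0 | h0
      · -- q = 0
        have hr : (r : ℝ) = k * s := by rw [← hrR, ← h0, hts]; ring
        rw [hr] at h2
        have : 1 < (k : ℝ) * g - k / t := by
          rw [hts]
          have : (k : ℝ) * g - k / s - 1 = (g * s * k - (s + k)) / s := by
            field_simp
            ring
          have h3 : 0 < (g * s * k - (s + k)) / s := by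
            apply div_pos _ hsR
            nlinarith
          linarith
        linarith
      · have h4 : 0 < q / (t * (t + 1)) := by positivity
        have : 1 ≤ (k : ℝ) * g - k / t := by
          rw [hts]
          have : (k : ℝ) * g - k / s - 1 = (g * s * k - (s + k)) / s := by
            field_simp
            ring
          have h3 : 0 ≤ (g * s * k - (s + k)) / s := by
            apply div_nonneg _ hsR.le
            linarith
          linarith
        linarith
    · have hlt : (s : ℝ) < t := by exact_mod_cast h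
      have : 1 < (k : ℝ) * g - k / t := by
        have e : (k : ℝ) * g - k / t - 1 = (g * t * k - (t + k)) / t := by
          field_simp
          ring
        have h3 : 0 < (g * t * k - (t + k)) / t := by
          apply div_pos _ htR
          nlinarith
        linarith
      linarith

theorem pair_good (r : ℕ) (g : ℝ) (hg : 0 < g) :
    ∀ n s k : ℕ, s + k = n → 1 < g * s → 1 < g * k → (s : ℝ) + k ≤ g * s * k →
      (s : ℝ) + k < r * g → Good r g := by
  intro n
  induction n using Nat.strong_induction_on with
  | _ n ih =>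
    -- the case `k ≤ s`
    have main : ∀ s k : ℕ, s + k = n → 1 < g * s → 1 < g * k → (s : ℝ) + k ≤ g * s * k →
      (s : ℝ) + k < r * g → k ≤ s → Good r g := by
      intro s k hn hs hk h1 h2 hks
      by_cases hle : s * k ≤ r
      · exact pair_good_direct r g hg s k hs hk h1 h2 hle
      push Not at hle
      have hs0 : 0 < s := by
        rcases Nat.eq_zero_or_pos s with h | h
        · subst h; simp at hs; linarith
        · exact h
      have hk0 : 0 < k := by
        rcases Nat.eq_zero_or_pos k with h | h
        · subst h; simp at hk; linarith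
        · exact h
      obtain ⟨s', rfl⟩ : ∃ s', s = s' + 1 := ⟨s - 1, by omega⟩
      have hkR : (0 : ℝ) < k := by exact_mod_cast hk0
      push_cast at hs h1 h2
      have hrR : (r : ℝ) + 1 ≤ (s' + 1) * k := by exact_mod_cast hle
      have hksR : (k : ℝ) ≤ s' + 1 := by exact_mod_cast hks
      by_cases ha : g * s' ≤ 1
      · exfalso
        have h3 : (s' : ℝ) + 1 + k < g * ((s' + 1) * k - 1) := by
          calc (s' : ℝ) + 1 + k < r * g := h2
            _ ≤ ((s' + 1) * k - 1) * g := by gcongr; linarith
            _ = _ := by ring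
        have h4 : g * (s' + 1) * k ≤ (1 + g) * k := by
          have : g * ((s' : ℝ) + 1) ≤ 1 + g := by linarith
          gcongr
        have h5 : (s' : ℝ) + 1 < g * (k - 1) := by nlinarith
        have h6 : g * ((k : ℝ) - 1) ≤ g * s' := by
          have : (k : ℝ) - 1 ≤ s' := by linarith
          gcongr
        have h7 : (0 : ℝ) ≤ s' := by positivity
        linarith
      push Not at ha
      have hs'0 : 0 < s' := by
        rcases Nat.eq_zero_or_pos s' with h | h
        · subst h; simp at ha; linarith
        · exact h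
      have hs'R : (0 : ℝ) < s' := by exact_mod_cast hs'0
      by_cases hb : (s' : ℝ) + k ≤ g * s' * k
      · exact ih (s' + k) (by omega) s' k rfl ha hk hb (by linarith)
      push Not at hb
      -- now the interpolated partition
      have hge : k * s' ≤ r := by
        have : (k : ℝ) * s' < r := by
          have h3 : g * (k * s') < g * r := by nlinarith
          exact lt_of_mul_lt_mul_left h3 hg.le
        exact_mod_cast this.le
      obtain ⟨q, hq⟩ := Nat.exists_eq_add_of_le hge
      have hqk : q ≤ k := by
        have : k * s' + q < (s' + 1) * k := by rw [← hq]; exact hle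
        have h8 : (s' + 1) * k = k * s' + k := by ring
        rw [h8] at this
        omega
      refine ⟨k, s', q, hk0, hs'0, hqk, hq, ha, ?_⟩
      have hqR : (r : ℝ) = k * s' + q := by rw [hq]; push_cast; ring
      have e : (k : ℝ) * g - (k - q) / s' - q / (s' + 1) - 1
          = (g * (k * g * s' * (s' + 1) - k * (s' + 1) + q - s' * (s' + 1)))
            / (g * (s' * (s' + 1))) := by
        field_simp
        ring
      have h9 : 0 < g * (k * g * s' * (s' + 1) - k * (s' + 1) + q - s' * (s' + 1)) := by
        have h10 : 0 ≤ (g * s' - 1) * (g * (s' + 1) * k - (s' + 1 + k)) := by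
          apply mul_nonneg <;> linarith
        rw [hqR] at h2
        nlinarith
      have h11 : 0 < (g * (k * g * s' * (s' + 1) - k * (s' + 1) + q - s' * (s' + 1)))
            / (g * (s' * (s' + 1))) := by positivity
      linarith
    intro s k hn hs hk h1 h2
    rcases le_total k s with h | h
    · exact main s k hn hs hk h1 h2 h
    · exact main k s (by omega) hk hs (by linarith) (by linarith) h

/-- The interpolated case. -/
theorem interp_good (r : ℕ) (g : ℝ) (hg : 0 < g) (s k : ℕ) (θ : ℝ) (h0 : 0 ≤ θ) (h1 : θ ≤ 1)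
    (hs : 1 < g * s) (hk : 1 < g * k)
    (hstar : g * (s + 1) - 1 - g * θ ≤ (g * k - 1) * ((g * s - 1) * (g * (s + 1) - 1)))
    (hsum : (s : ℝ) + θ + k < r * g) : Good r g := by
  have hs0 : 0 < s := by
    rcases Nat.eq_zero_or_pos s with h | h
    · subst h; simp at hs; linarith
    · exact h
  have hk0 : 0 < k := by
    rcases Nat.eq_zero_or_pos k with h | h
    · subst h; simp at hk; linarith
    · exact h
  have hsR : (0 : ℝ) < s := by exact_mod_cast hs0
  have hkR : (0 : ℝ) < k := by exact_mod_cast hk0
  -- reformulate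
  have hstar' : g * s * (s + 1) - s - θ ≤ k * ((g * s - 1) * (g * (s + 1) - 1)) := by
    have h3 : g * (g * s * (s + 1) - s - θ) ≤ g * (k * ((g * s - 1) * (g * (s + 1) - 1))) := by
      nlinarith
    exact le_of_mul_le_mul_left h3 hg
  by_cases hA : r ≤ s * k
  · -- pair (s,k)
    have hrR : (r : ℝ) ≤ s * k := by exact_mod_cast hA
    have h4 : (s : ℝ) + k < g * s * k := by
      have : (r : ℝ) * g ≤ s * k * g := by gcongr
      nlinarith
    exact pair_good r g hg (s + k) s k rfl hs hk h4.le (by linarith)
  push Not at hA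
  by_cases hB : (s + 1) * k ≤ r
  · -- pair (s+1,k)
    have hu0 : 0 < g * s - 1 := by linarith
    have hu1 : 0 < g * (s + 1) - 1 := by nlinarith
    have hrR : ((s : ℝ) + 1) * k ≤ r := by exact_mod_cast hB
    have hv : 0 < g * k - 1 := by linarith
    -- (g(s+1)-1)(gk-1) ≥ 1, strict if θ<1
    have h5 : g * s - 1 + g * (1 - θ) ≤ (g * s - 1) * ((g * k - 1) * (g * (s + 1) - 1)) := by
      nlinarith
    have h6 : 1 ≤ (g * k - 1) * (g * (s + 1) - 1) := by
      by_contra hcon
      push Not at hcon
      have : (g * s - 1) * ((g * k - 1) * (g * (s + 1) - 1)) < (g * s - 1) * 1 := by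
        gcongr
      have h7 : 0 ≤ g * (1 - θ) := by apply mul_nonneg hg.le; linarith
      linarith
    have h8 : ((s : ℝ) + 1) + k ≤ g * (s + 1) * k := by
      have : 0 ≤ g * (g * (s + 1) * k - ((s + 1) + k)) := by nlinarith
      have := nonneg_of_mul_nonneg_right this hg
      linarith
    have h9 : ((s : ℝ) + 1) + k < r * g := by
      rcases h1.eq_or_lt with h | h
      · rw [h] at hsum; linarith
      · have h10 : 1 < (g * k - 1) * (g * (s + 1) - 1) := by
          by_contra hcon
          push Not at hcon
          have : (g * s - 1) * ((g * k - 1) * (g * (s + 1) - 1)) ≤ (g * s - 1) * 1 := by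
            gcongr
          have h7 : 0 < g * (1 - θ) := by apply mul_pos hg; linarith
          linarith
        have h11 : ((s : ℝ) + 1) + k < g * (s + 1) * k := by
          have : 0 < g * (g * (s + 1) * k - ((s + 1) + k)) := by nlinarith
          have := (mul_pos_iff_of_pos_left hg).mp this
          linarith
        calc ((s : ℝ) + 1) + k < g * (s + 1) * k := h11
          _ = ((s + 1) * k) * g := by ring
          _ ≤ r * g := by gcongr
    refine pair_good r g hg (s + 1 + k) (s + 1) k rfl ?_ hk ?_ ?_
    · push_cast; nlinarith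
    · push_cast; exact h8
    · push_cast; exact h9
  push Not at hB
  -- direct
  have hge : k * s ≤ r := by rw [mul_comm]; exact hA.le
  obtain ⟨q, hq⟩ := Nat.exists_eq_add_of_le hge
  have hqk : q ≤ k := by
    have h8 : (s + 1) * k = k * s + k := by ring
    rw [h8] at hB
    omega
  refine ⟨k, s, q, hk0, hs0, hqk, hq, hs, ?_⟩
  have hqR : (r : ℝ) = k * s + q := by rw [hq]; push_cast; ring
  have e : (k : ℝ) * g - (k - q) / s - q / (s + 1) - 1
      = (g * (k * g * s * (s + 1) - k * (s + 1) + q - s * (s + 1)))
        / (g * (s * (s + 1))) := by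
    field_simp
    ring
  have h9 : 0 < g * (k * g * s * (s + 1) - k * (s + 1) + q - s * (s + 1)) := by
    rw [hqR] at hsum
    nlinarith
  have h11 : 0 < (g * (k * g * s * (s + 1) - k * (s + 1) + q - s * (s + 1)))
        / (g * (s * (s + 1))) := by positivity
  linarith

/-- chord inequality for `1/(g n - 1)` at integers -/
theorem chord (g : ℝ) (hg : 0 < g) (s n : ℕ) (hs : 1 < g * s) (hn : 1 < g * n) :
    (g * (s + 1) - 1 - g * (n - s)) / ((g * s - 1) * (g * (s + 1) - 1)) ≤ 1 / (g * n - 1) := by
  have h1 : 0 < g * s - 1 := by linarith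
  have h2 : 0 < g * (s + 1) - 1 := by nlinarith
  have h3 : 0 < g * n - 1 := by linarith
  rw [div_le_div_iff₀ (by positivity) h3]
  have hz : (0 : ℝ) ≤ ((n : ℝ) - s) * ((n : ℝ) - s - 1) := by
    rcases le_or_gt n s with h | h
    · have : (n : ℝ) ≤ s := by exact_mod_cast h
      nlinarith
    · have : (s : ℝ) + 1 ≤ n := by exact_mod_cast h
      nlinarith
  have hgg : 0 ≤ g ^ 2 * (((n : ℝ) - s) * ((n : ℝ) - s - 1)) := by positivity
  nlinarith

/-- Main numerical lemma. -/
theorem numeric (r : ℕ) (g : ℝ) (hg : 0 < g) (s k : ℕ) (θ η : ℝ)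
    (hθ0 : 0 ≤ θ) (hθ1 : θ ≤ 1) (hη0 : 0 ≤ η) (hη1 : η ≤ 1)
    (hs : 1 < g * s) (hk : 1 < g * k)
    (hprod : (g * (s + 1) - 1 - g * θ) * (g * (k + 1) - 1 - g * η)
      ≤ ((g * s - 1) * (g * (s + 1) - 1)) * ((g * k - 1) * (g * (k + 1) - 1)))
    (hsum : (s : ℝ) + θ + (k + η) < r * g) : Good r g := by
  have hu0 : 0 < g * s - 1 := by linarith
  have hv0 : 0 < g * k - 1 := by linarith
  have hu1 : 0 < g * (s + 1) - 1 := by nlinarith
  have hv1 : 0 < g * (k + 1) - 1 := by nlinarith
  set u0 := g * (s : ℝ) - 1 with hu0d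
  set v0 := g * (k : ℝ) - 1 with hv0d
  have hu1e : g * ((s : ℝ) + 1) - 1 = u0 + g := by rw [hu0d]; ring
  have hv1e : g * ((k : ℝ) + 1) - 1 = v0 + g := by rw [hv0d]; ring
  rw [hu1e, hv1e] at hprod
  rw [hu1e] at hu1
  rw [hv1e] at hv1
  rcases le_or_gt (θ + η) 1 with hσ | hσ
  · -- endpoints (σ,0), (0,σ)
    rcases le_total (u0 + g) (v0 + g) with h | h
    · -- (s, σ, k)
      refine interp_good r g hg s k (θ + η) (by linarith) hσ hs hk ?_ (by linarith)
      rw [hu1e]
      have h3 : (u0 + g - g * (θ + η)) * (v0 + g) ≤ (u0 + g - g * θ) * (v0 + g - g * η) := by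
        have h4 : 0 ≤ g * η * ((v0 + g) - (u0 + g)) := by
          apply mul_nonneg (by positivity); linarith
        have h5 : 0 ≤ g * θ * (g * η) := by positivity
        nlinarith
      have h6 : (u0 + g - g * (θ + η)) * (v0 + g) ≤ (v0 * (u0 * (u0 + g))) * (v0 + g) := by
        calc _ ≤ _ := h3
          _ ≤ _ := hprod
          _ = _ := by ring
      exact le_of_mul_le_mul_right h6 hv1
    · -- (k, σ, s)
      refine interp_good r g hg k s (θ + η) (by linarith) hσ hk hs ?_ (by linarith)
      rw [hv1e]
      have h3 : (v0 + g - g * (θ + η)) * (u0 + g) ≤ (u0 + g - g * θ) * (v0 + g - g * η) := by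
        have h4 : 0 ≤ g * θ * ((u0 + g) - (v0 + g)) := by
          apply mul_nonneg (by positivity); linarith
        have h5 : 0 ≤ g * θ * (g * η) := by positivity
        nlinarith
      have h6 : (v0 + g - g * (θ + η)) * (u0 + g) ≤ (u0 * (v0 * (v0 + g))) * (u0 + g) := by
        calc _ ≤ _ := h3
          _ ≤ _ := hprod
          _ = _ := by ring
      exact le_of_mul_le_mul_right h6 hu1
  · -- endpoints (1, σ-1), (σ-1, 1)
    have hθ' : 0 ≤ 1 - θ := by linarith
    have hη' : 0 ≤ 1 - η := by linarith
    rcases le_total u0 v0 with h | h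
    · -- (k, σ-1, s+1)
      have hs1 : 1 < g * ((s + 1 : ℕ) : ℝ) := by push_cast; nlinarith
      refine interp_good r g hg k (s + 1) (θ + η - 1) (by linarith) (by linarith) hk hs1 ?_
        (by push_cast; linarith)
      push_cast
      rw [hv1e, hu1e]
      have h3 : (v0 + g - g * (θ + η - 1)) * u0 ≤ (u0 + g - g * θ) * (v0 + g - g * η) := by
        have h4 : 0 ≤ g * (1 - θ) * (v0 - u0) := by
          apply mul_nonneg (by positivity); linarith
        have h5 : 0 ≤ g * (1 - θ) * (g * (1 - η)) := by positivity
        nlinarith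
      have h6 : (v0 + g - g * (θ + η - 1)) * u0 ≤ ((u0 + g) * (v0 * (v0 + g))) * u0 := by
        calc _ ≤ _ := h3
          _ ≤ _ := hprod
          _ = _ := by ring
      exact le_of_mul_le_mul_right h6 hu0
    · have hk1 : 1 < g * ((k + 1 : ℕ) : ℝ) := by push_cast; nlinarith
      refine interp_good r g hg s (k + 1) (θ + η - 1) (by linarith) (by linarith) hs hk1 ?_
        (by push_cast; linarith)
      push_cast
      rw [hv1e, hu1e]
      have h3 : (u0 + g - g * (θ + η - 1)) * v0 ≤ (u0 + g - g * θ) * (v0 + g - g * η) := by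
        have h4 : 0 ≤ g * (1 - η) * (u0 - v0) := by
          apply mul_nonneg (by positivity); linarith
        have h5 : 0 ≤ g * (1 - θ) * (g * (1 - η)) := by positivity
        nlinarith
      have h6 : (u0 + g - g * (θ + η - 1)) * v0 ≤ ((v0 + g) * (u0 * (u0 + g))) * v0 := by
        calc _ ≤ _ := h3
          _ ≤ _ := hprod
          _ = _ := by ring
      exact le_of_mul_le_mul_right h6 hv0

end Pool.Agent.Work.MP_f3ac61_co
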